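import Pool.Agent.Lib.MP_a46e5c_co.Radon

namespace Pool.Agent.Results.MP_a46e5c_co.Finite

/-- The exponential lattice `L_d(α) = {α^n : n ≥ 0}^d`. -/
def expLattice (d : ℕ) (α : ℝ) : Set (Fin d → ℝ) :=
  {x | ∀ j, ∃ n : ℕ, x j = α ^ n}

/-- The Helly number of `L_d(α)` is finite for every dimension `d` and every `α > 1`. -/
theorem result (d : ℕ) (α : ℝ) (hα : 1 < α) :
    ∃ h : ℕ, ∀ F : Finset (Set (Fin d → ℝ)), (∀ C ∈ F, Convex ℝ C) →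
      (∀ G ⊆ F, G.card ≤ h → ∃ x ∈ expLattice d α, ∀ C ∈ G, x ∈ C) →
      ∃ x ∈ expLattice d α, ∀ C ∈ F, x ∈ C :=
  Pool.Agent.Lib.MP_a46e5c_co.helly α hα d

end Pool.Agent.Results.MP_a46e5c_co.Finite
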